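import Mathlib

namespace Pool.Agent.Apo

open Finset

universe u

variable {V : Type u} [DecidableEq V]

/-- `Subdivided G a b c S`: in the graph `G` the triangle with corners `a`, `b`, `c` is recursively
subdivided, with the set `S` of interior vertices. Either nothing is inside (`S` is empty, and `a`,
`b`, `c` are pairwise adjacent), or there is an interior vertex `d`, and the three triangles `dbc`,
`adc`, `abd` are themselves recursively subdivided, with pairwise disjoint sets `A`, `B`, `C` of
interior vertices; then `S` consists of `d` and `A`, `B`, `C`. -/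
inductive Subdivided (G : SimpleGraph V) : V → V → V → Finset V → Prop
  | empty {a b c : V} (hab : G.Adj a b) (hac : G.Adj a c) (hbc : G.Adj b c) :
      Subdivided G a b c ∅
  | split {a b c d : V} {A B C : Finset V}
      (hA : Subdivided G d b c A) (hB : Subdivided G a d c B) (hC : Subdivided G a b d C)
      (ha : a ∉ insert d (A ∪ B ∪ C)) (hb : b ∉ insert d (A ∪ B ∪ C))
      (hc : c ∉ insert d (A ∪ B ∪ C)) (hd : d ∉ A ∪ B ∪ C)
      (hAB : Disjoint A B) (hAC : Disjoint A C) (hBC : Disjoint B C) :
      Subdivided G a b c (insert d (A ∪ B ∪ C))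

/-- `G` contains a spanning Apollonian network: for some triangle `abc` of `G`, all other vertices
of `G` are the interior vertices of a recursive subdivision of `abc` in `G`. -/
def HasSpanningApollonian (G : SimpleGraph V) : Prop :=
  ∃ (a b c : V) (S : Finset V), Subdivided G a b c S ∧ a ∉ S ∧ b ∉ S ∧ c ∉ S ∧
    ∀ v : V, v = a ∨ v = b ∨ v = c ∨ v ∈ S

end Pool.Agent.Apo
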