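import Mathlib
import Pool.Agent.Apo.Defs

namespace Pool.Agent.Apo

open Finset

universe u

variable {V : Type u} [DecidableEq V]

/-! ### Growing trees -/

/-- A tree in `G` with vertex set `W` and degree function `δ`, built by adding leaves. -/
inductive GT (G : SimpleGraph V) : Finset V → (V → ℕ) → Prop
  | one (v : V) : GT G {v} (fun _ => 0)
  | leaf {W : Finset V} {δ : V → ℕ} {x y : V} (h : GT G W δ) (hx : x ∈ W) (hy : y ∉ W)
      (hxy : G.Adj x y) :
      GT G (insert y W) (fun w => δ w + (if w = x then 1 else 0) + (if w = y then 1 else 0))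

theorem GT.zero {G : SimpleGraph V} {W : Finset V} {δ : V → ℕ} (h : GT G W δ) :
    ∀ w, w ∉ W → δ w = 0 := by
  induction h with
  | one v => intro w _; rfl
  | @leaf W δ x y h hx hy hxy ih =>
    intro w hw
    simp only [Finset.mem_insert, not_or] at hw
    have h1 : w ≠ x := by
      rintro rfl
      exact hw.2 hx
    simp [ih w hw.2, h1, hw.1]

theorem GT.sum {G : SimpleGraph V} {W : Finset V} {δ : V → ℕ} (h : GT G W δ) :
    ∑ w ∈ W, δ w + 2 = 2 * W.card := by
  induction h with
  | one v => simp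
  | @leaf W δ x y h hx hy hxy ih =>
    have hy0 := h.zero y hy
    have hyx : y ≠ x := by
      rintro rfl
      exact hy hx
    rw [Finset.sum_insert hy, Finset.card_insert_of_notMem hy, Finset.sum_add_distrib,
      Finset.sum_add_distrib, Finset.sum_ite_eq' W x, Finset.sum_ite_eq' W y]
    simp only [hx, hy, if_true, if_false, hy0, hyx]
    omega

theorem GT.tree {G : SimpleGraph V} {W : Finset V} {δ : V → ℕ} (h : GT G W δ) :
    ∃ T : SimpleGraph V, T ≤ G ∧ (∀ x y, T.Adj x y → x ∈ W ∧ y ∈ W) ∧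
      (∀ x ∈ W, ∀ y ∈ W, T.Reachable x y) ∧
      (∀ x, (T.neighborSet x).Finite ∧ (T.neighborSet x).ncard = δ x) := by
  induction h with
  | one v =>
    refine ⟨⊥, bot_le, by simp, ?_, ?_⟩
    · intro x hx y hy
      rw [Finset.mem_singleton] at hx hy
      subst hx; subst hy
      exact SimpleGraph.Reachable.refl _
    · intro x
      have : (⊥ : SimpleGraph V).neighborSet x = ∅ := by
        ext z; simp [SimpleGraph.neighborSet]
      rw [this]
      simp
  | @leaf W δ x y h hx hy hxy ih =>
    obtain ⟨T, hTG, hTW, hTr, hTd⟩ := ih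
    have hyx : y ≠ x := by
      rintro rfl
      exact hy hx
    have hadj : ∀ p q, (T ⊔ SimpleGraph.edge x y).Adj p q ↔
        T.Adj p q ∨ (p = x ∧ q = y) ∨ (p = y ∧ q = x) := by
      intro p q
      rw [SimpleGraph.sup_adj, SimpleGraph.edge_adj]
      constructor
      · rintro (h | ⟨h, _⟩)
        · exact Or.inl h
        · rcases h with ⟨h1, h2⟩ | ⟨h1, h2⟩
          · exact Or.inr (Or.inl ⟨h1, h2⟩)
          · exact Or.inr (Or.inr ⟨h1, h2⟩)
      · rintro (h | ⟨h1, h2⟩ | ⟨h1, h2⟩)
        · exact Or.inl h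
        · refine Or.inr ⟨Or.inl ⟨h1, h2⟩, ?_⟩
          rw [h1, h2]; exact hyx.symm
        · refine Or.inr ⟨Or.inr ⟨h1, h2⟩, ?_⟩
          rw [h1, h2]; exact hyx
    refine ⟨T ⊔ SimpleGraph.edge x y, ?_, ?_, ?_, ?_⟩
    · intro p q hpq
      rcases (hadj p q).1 hpq with h | ⟨h1, h2⟩ | ⟨h1, h2⟩
      · exact hTG h
      · rw [h1, h2]; exact hxy
      · rw [h1, h2]; exact hxy.symm
    · intro p q hpq
      rcases (hadj p q).1 hpq with h | ⟨h1, h2⟩ | ⟨h1, h2⟩
      · exact ⟨Finset.mem_insert_of_mem (hTW p q h).1, Finset.mem_insert_of_mem (hTW p q h).2⟩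
      · rw [h1, h2]; exact ⟨Finset.mem_insert_of_mem hx, Finset.mem_insert_self _ _⟩
      · rw [h1, h2]; exact ⟨Finset.mem_insert_self _ _, Finset.mem_insert_of_mem hx⟩
    · have hle : T ≤ T ⊔ SimpleGraph.edge x y := le_sup_left
      have hedge : (T ⊔ SimpleGraph.edge x y).Adj x y := (hadj x y).2 (Or.inr (Or.inl ⟨rfl, rfl⟩))
      have key : ∀ p ∈ insert y W, (T ⊔ SimpleGraph.edge x y).Reachable x p := by
        intro p hp
        rw [Finset.mem_insert] at hp
        rcases hp with rfl | hp
        · exact hedge.reachable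
        · exact (hTr x hx p hp).mono hle
      intro p hp q hq
      exact (key p hp).symm.trans (key q hq)
    · intro p
      by_cases hpx : p = x
      · subst hpx
        have hns : (T ⊔ SimpleGraph.edge p y).neighborSet p = insert y (T.neighborSet p) := by
          ext z
          rw [SimpleGraph.mem_neighborSet, hadj, Set.mem_insert_iff, SimpleGraph.mem_neighborSet]
          constructor
          · rintro (h | ⟨_, h2⟩ | ⟨h1, _⟩)
            · exact Or.inr h
            · exact Or.inl h2
            · exact absurd h1.symm hyx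
          · rintro (h | h)
            · exact Or.inr (Or.inl ⟨rfl, h⟩)
            · exact Or.inl h
        have hnot : y ∉ T.neighborSet p := by
          intro hmem
          exact hy (hTW p y hmem).2
        rw [hns]
        refine ⟨(hTd p).1.insert y, ?_⟩
        rw [Set.ncard_insert_of_notMem hnot (hTd p).1, (hTd p).2]
        simp [hyx.symm]
      · by_cases hpy : p = y
        · subst hpy
          have hns : (T ⊔ SimpleGraph.edge x p).neighborSet p = {x} := by
            ext z
            rw [SimpleGraph.mem_neighborSet, hadj, Set.mem_singleton_iff]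
            constructor
            · rintro (h | ⟨h1, _⟩ | ⟨_, h2⟩)
              · exact absurd (hTW p z h).1 hy
              · exact absurd h1 hpx
              · exact h2
            · intro h
              exact Or.inr (Or.inr ⟨rfl, h⟩)
          rw [hns]
          refine ⟨Set.finite_singleton x, ?_⟩
          rw [Set.ncard_singleton]
          simp [hpx, h.zero p hy]
        · have hns : (T ⊔ SimpleGraph.edge x y).neighborSet p = T.neighborSet p := by
            ext z
            rw [SimpleGraph.mem_neighborSet, hadj, SimpleGraph.mem_neighborSet]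
            constructor
            · rintro (h | ⟨h1, _⟩ | ⟨h1, _⟩)
              · exact h
              · exact absurd h1 hpx
              · exact absurd h1 hpy
            · intro h
              exact Or.inl h
          rw [hns]
          refine ⟨(hTd p).1, ?_⟩
          rw [(hTd p).2]
          simp [hpx, hpy]

/-- A growing tree on all vertices is a spanning tree. -/
theorem GT.final [Fintype V] {G : SimpleGraph V} {δ : V → ℕ} (h : GT G Finset.univ δ) :
    ∃ T : SimpleGraph V, T ≤ G ∧ T.IsTree ∧ ∀ x, (T.neighborSet x).ncard = δ x := by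
  classical
  obtain ⟨T, hTG, hTW, hTr, hTd⟩ := h.tree
  have hne : Nonempty V := by
    have h2 := h.sum
    by_contra hcon
    rw [not_nonempty_iff] at hcon
    have h3 : (Finset.univ : Finset V) = ∅ := Finset.univ_eq_empty
    rw [h3] at h2
    simp at h2
  refine ⟨T, hTG, ?_, fun x => (hTd x).2⟩
  rw [SimpleGraph.isTree_iff_connected_and_card]
  have hconn : T.Connected := by
    have := hne
    exact ⟨fun x y => hTr x (Finset.mem_univ _) y (Finset.mem_univ _)⟩
  refine ⟨hconn, ?_⟩
  have hdeg : ∀ x, T.degree x = δ x := by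
    intro x
    rw [← (hTd x).2, ← SimpleGraph.card_neighborSet_eq_degree, Set.ncard_eq_toFinset_card']
    simp [Set.toFinset_card]
  have hsum := T.sum_degrees_eq_twice_card_edges
  have h2 := h.sum
  have h3 : ∑ w : V, T.degree w = ∑ w : V, δ w := Finset.sum_congr rfl fun w _ => hdeg w
  rw [Nat.card_eq_fintype_card, Nat.card_eq_fintype_card]
  have h4 : Fintype.card T.edgeSet = T.edgeFinset.card := by
    rw [SimpleGraph.edgeFinset_card]
  rw [h4]
  rw [Finset.card_univ] at h2
  omega

/-! ### Regions -/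

/-- A recursively subdivided triangle, with the number `f` of interior vertices `d` all of whose
three smaller triangles have interior vertices. -/
inductive Reg (G : SimpleGraph V) : V → V → V → Finset V → ℕ → Prop
  | nil {a b c : V} (hab : G.Adj a b) (hac : G.Adj a c) (hbc : G.Adj b c) : Reg G a b c ∅ 0
  | node {a b c d : V} {A B C : Finset V} {f g h k : ℕ}
      (hA : Reg G d b c A f) (hB : Reg G a d c B g) (hC : Reg G a b d C h)
      (ha : a ∉ insert d (A ∪ B ∪ C)) (hb : b ∉ insert d (A ∪ B ∪ C))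
      (hc : c ∉ insert d (A ∪ B ∪ C)) (hd : d ∉ A ∪ B ∪ C)
      (hAB : Disjoint A B) (hAC : Disjoint A C) (hBC : Disjoint B C)
      (hk : k = f + g + h + if A = ∅ ∨ B = ∅ ∨ C = ∅ then 0 else 1) :
      Reg G a b c (insert d (A ∪ B ∪ C)) k

theorem Subdivided.reg {G : SimpleGraph V} {a b c : V} {S : Finset V}
    (h : Subdivided G a b c S) : ∃ f, Reg G a b c S f := by
  induction h with
  | empty hab hac hbc => exact ⟨0, Reg.nil hab hac hbc⟩
  | split hA hB hC ha hb hc hd hAB hAC hBC ihA ihB ihC =>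
    obtain ⟨f, hf⟩ := ihA
    obtain ⟨g, hg⟩ := ihB
    obtain ⟨h, hh⟩ := ihC
    exact ⟨_, Reg.node hf hg hh ha hb hc hd hAB hAC hBC rfl⟩

theorem Reg.adj {G : SimpleGraph V} {a b c : V} {S : Finset V} {f : ℕ}
    (h : Reg G a b c S f) : G.Adj a b ∧ G.Adj a c ∧ G.Adj b c := by
  induction h with
  | nil hab hac hbc => exact ⟨hab, hac, hbc⟩
  | node hA hB hC ha hb hc hd hAB hAC hBC hk ihA ihB ihC =>
    exact ⟨ihC.1, ihB.2.1, ihA.2.2⟩

theorem Reg.swap12 {G : SimpleGraph V} {a b c : V} {S : Finset V} {f : ℕ}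
    (h : Reg G a b c S f) : Reg G b a c S f := by
  induction h with
  | nil hab hac hbc => exact Reg.nil hab.symm hbc hac
  | @node a b c d A B C f g h k hA hB hC ha hb hc hd hAB hAC hBC hk ihA ihB ihC =>
    have hS : insert d (A ∪ B ∪ C) = insert d (B ∪ A ∪ C) := by
      rw [Finset.union_comm A B]
    rw [hS] at ha hb hc ⊢
    rw [Finset.union_comm A B] at hd
    refine Reg.node ihB ihA ihC hb ha hc hd hAB.symm hBC hAC ?_
    rw [hk]
    have : (A = ∅ ∨ B = ∅ ∨ C = ∅) ↔ (B = ∅ ∨ A = ∅ ∨ C = ∅) := by tauto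
    simp only [this]
    omega

theorem Reg.swap23 {G : SimpleGraph V} {a b c : V} {S : Finset V} {f : ℕ}
    (h : Reg G a b c S f) : Reg G a c b S f := by
  induction h with
  | nil hab hac hbc => exact Reg.nil hac hab hbc.symm
  | @node a b c d A B C f g h k hA hB hC ha hb hc hd hAB hAC hBC hk ihA ihB ihC =>
    have hU : A ∪ B ∪ C = A ∪ C ∪ B := by
      rw [Finset.union_assoc, Finset.union_comm B C, ← Finset.union_assoc]
    rw [hU] at ha hb hc hd ⊢
    refine Reg.node ihA ihC ihB ha hc hb hd hAC hAB hBC.symm ?_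
    rw [hk]
    have : (A = ∅ ∨ B = ∅ ∨ C = ∅) ↔ (A = ∅ ∨ C = ∅ ∨ B = ∅) := by tauto
    simp only [this]
    omega

theorem Reg.swap13 {G : SimpleGraph V} {a b c : V} {S : Finset V} {f : ℕ}
    (h : Reg G a b c S f) : Reg G c b a S f := h.swap12.swap23.swap12

theorem Reg.card {G : SimpleGraph V} {a b c : V} {S : Finset V} {f : ℕ}
    (h : Reg G a b c S f) : (S = ∅ ∧ f = 0) ∨ (S ≠ ∅ ∧ 3 * f + 1 ≤ S.card) := by
  induction h with
  | nil hab hac hbc => exact Or.inl ⟨rfl, rfl⟩
  | @node a b c d A B C f g h k hA hB hC ha hb hc hd hAB hAC hBC hk ihA ihB ihC =>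
    right
    refine ⟨Finset.insert_ne_empty _ _, ?_⟩
    have hABC : Disjoint (A ∪ B) C := Finset.disjoint_union_left.2 ⟨hAC, hBC⟩
    rw [Finset.card_insert_of_notMem hd, Finset.card_union_of_disjoint hABC,
      Finset.card_union_of_disjoint hAB]
    rcases ihA with ⟨hA0, hf⟩ | ⟨hA0, hf⟩ <;> rcases ihB with ⟨hB0, hg⟩ | ⟨hB0, hg⟩ <;>
      rcases ihC with ⟨hC0, hh⟩ | ⟨hC0, hh⟩ <;> simp [hA0, hB0, hC0] at hk ⊢ <;> omega

/-! ### Pieces -/

/-- `Pc G X Y S e c`: every growing tree whose vertex set contains `X` and avoids `S` and `Y` can be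
extended over `S` and `Y`, such that the old degrees increase by at most `e`, the new vertices in `Y`
are leaves, and `S` has total excess at most `c` and maximum degree at most three. -/
def Pc (G : SimpleGraph V) (X Y S : Finset V) (e : V → ℕ) (c : ℕ) : Prop :=
  ∀ (W : Finset V) (δ : V → ℕ), GT G W δ → X ⊆ W → Disjoint W S → Disjoint W Y →
    ∃ δ' : V → ℕ, GT G (W ∪ (S ∪ Y)) δ' ∧ (∀ w ∈ W, δ' w ≤ δ w + e w) ∧ (∀ y ∈ Y, δ' y ≤ 1) ∧
      (∀ s ∈ S, δ' s ≤ 3) ∧ ∑ s ∈ S, (δ' s - 2) ≤ c

theorem Pc.triv (G : SimpleGraph V) (X : Finset V) : Pc G X ∅ ∅ (fun _ => 0) 0 := by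
  intro W δ h hX _ _
  refine ⟨δ, ?_, by simp, by simp, by simp, by simp⟩
  simpa using h

theorem Pc.edge {G : SimpleGraph V} {x y : V} (hxy : G.Adj x y) :
    Pc G {x} {y} ∅ (fun w => if w = x then 1 else 0) 0 := by
  intro W δ h hX _ hY
  have hx : x ∈ W := hX (Finset.mem_singleton_self x)
  have hy : y ∉ W := by
    intro hy
    exact Finset.disjoint_left.1 hY hy (Finset.mem_singleton_self y)
  have h0 := h.zero y hy
  have hyx : y ≠ x := by
    rintro rfl
    exact hy hx
  refine ⟨fun w => δ w + (if w = x then 1 else 0) + (if w = y then 1 else 0), ?_, ?_, ?_,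
    by simp, by simp⟩
  · have := GT.leaf h hx hy hxy
    have hW : W ∪ (∅ ∪ {y}) = insert y W := by
      ext z; simp
    rw [hW]; exact this
  · intro w hw
    have : w ≠ y := by
      rintro rfl
      exact hy hw
    simp [this]
  · intro z hz
    rw [Finset.mem_singleton] at hz
    subst hz
    simp [h0, hyx]

/-- Three pieces around a centre `d`. -/
theorem Pc.comp {G : SimpleGraph V} {X X₁ X₂ X₃ Y R₁ R₂ R₃ : Finset V} {d : V}
    {e e₁ e₂ e₃ : V → ℕ} {c₁ c₂ c₃ t : ℕ}
    (P₁ : Pc G X₁ {d} R₁ e₁ c₁) (P₂ : Pc G X₂ Y R₂ e₂ c₂) (P₃ : Pc G X₃ ∅ R₃ e₃ c₃)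
    (hX₁ : X₁ ⊆ X) (hX₂ : X₂ ⊆ insert d X) (hX₃ : X₃ ⊆ insert d X)
    (hd : d ∉ R₁ ∪ R₂ ∪ R₃) (h12 : Disjoint R₁ R₂) (h13 : Disjoint R₁ R₃)
    (h23 : Disjoint R₂ R₃) (hY : Disjoint Y (insert d (R₁ ∪ R₂ ∪ R₃)))
    (he₂ : ∀ w, w ∉ insert d X → e₂ w = 0) (he₃ : ∀ w, w ∉ insert d X → e₃ w = 0)
    (he : ∀ w, w ≠ d → e₁ w + e₂ w + e₃ w ≤ e w)
    (ht : 1 + e₂ d + e₃ d ≤ 2 + t) (ht1 : t ≤ 1) :
    Pc G X Y (insert d (R₁ ∪ R₂ ∪ R₃)) e (c₁ + c₂ + c₃ + t) := by
  intro W δ h hXW hWS hWY
  have hdW : d ∉ W := fun hh => Finset.disjoint_left.1 hWS hh (Finset.mem_insert_self _ _)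
  have hWR₁ : Disjoint W R₁ := Finset.disjoint_left.2 fun x hx hx' =>
    Finset.disjoint_left.1 hWS hx (by simp [hx'])
  have hWR₂ : Disjoint W R₂ := Finset.disjoint_left.2 fun x hx hx' =>
    Finset.disjoint_left.1 hWS hx (by simp [hx'])
  have hWR₃ : Disjoint W R₃ := Finset.disjoint_left.2 fun x hx hx' =>
    Finset.disjoint_left.1 hWS hx (by simp [hx'])
  have hd1 : d ∉ R₁ := fun hh => hd (by simp [hh])
  have hd2 : d ∉ R₂ := fun hh => hd (by simp [hh])
  have hd3 : d ∉ R₃ := fun hh => hd (by simp [hh])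
  have hY1 : Disjoint Y R₁ := Finset.disjoint_left.2 fun x hx hx' =>
    Finset.disjoint_left.1 hY hx (by simp [hx'])
  have hY2 : Disjoint Y R₂ := Finset.disjoint_left.2 fun x hx hx' =>
    Finset.disjoint_left.1 hY hx (by simp [hx'])
  have hY3 : Disjoint Y R₃ := Finset.disjoint_left.2 fun x hx hx' =>
    Finset.disjoint_left.1 hY hx (by simp [hx'])
  have hYd : d ∉ Y := fun hh => Finset.disjoint_left.1 hY hh (Finset.mem_insert_self _ _)
  have hWd : Disjoint W {d} := by
    rw [Finset.disjoint_singleton_right]; exact hdW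
  obtain ⟨δ₁, g₁, a₁, b₁, k₁, s₁⟩ := P₁ W δ h (hX₁.trans hXW) hWR₁ hWd
  have hins : insert d X ⊆ W ∪ (R₁ ∪ {d}) := by
    intro x hx
    rw [Finset.mem_insert] at hx
    rcases hx with rfl | hx
    · simp
    · exact Finset.mem_union_left _ (hXW hx)
  have hW1R2 : Disjoint (W ∪ (R₁ ∪ {d})) R₂ := by
    rw [Finset.disjoint_union_left, Finset.disjoint_union_left, Finset.disjoint_singleton_left]
    exact ⟨hWR₂, h12, hd2⟩
  have hW1Y : Disjoint (W ∪ (R₁ ∪ {d})) Y := by
    rw [Finset.disjoint_union_left, Finset.disjoint_union_left, Finset.disjoint_singleton_left]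
    exact ⟨hWY, hY1.symm, hYd⟩
  obtain ⟨δ₂, g₂, a₂, b₂, k₂, s₂⟩ := P₂ _ δ₁ g₁ (hX₂.trans hins) hW1R2 hW1Y
  have hW2R3 : Disjoint (W ∪ (R₁ ∪ {d}) ∪ (R₂ ∪ Y)) R₃ := by
    rw [Finset.disjoint_union_left, Finset.disjoint_union_left, Finset.disjoint_union_left,
      Finset.disjoint_singleton_left, Finset.disjoint_union_left]
    exact ⟨⟨hWR₃, h13, hd3⟩, h23, hY3⟩
  obtain ⟨δ₃, g₃, a₃, b₃, k₃, s₃⟩ := P₃ _ δ₂ g₂ ((hX₃.trans hins).trans Finset.subset_union_left)
    hW2R3 (Finset.disjoint_empty_right _)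
  have hXW' : ∀ x, x ∉ W → x ≠ d → x ∉ insert d X := by
    intro x hx hxd hx'
    rw [Finset.mem_insert] at hx'
    rcases hx' with rfl | hx'
    · exact hxd rfl
    · exact hx (hXW hx')
  -- final degrees
  have fW : ∀ w ∈ W, δ₃ w ≤ δ w + e w := by
    intro w hw
    have hwd : w ≠ d := by
      rintro rfl
      exact hdW hw
    have q1 := a₁ w hw
    have q2 := a₂ w (by simp [hw])
    have q3 := a₃ w (by simp [hw])
    have q4 := he w hwd
    omega
  have fd : δ₃ d ≤ 2 + t := by
    have q1 := b₁ d (by simp)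
    have q2 := a₂ d (by simp)
    have q3 := a₃ d (by simp)
    omega
  have fR1 : ∀ s ∈ R₁, δ₃ s ≤ δ₁ s := by
    intro s hs
    have hsW : s ∉ W := fun hh => Finset.disjoint_left.1 hWR₁ hh hs
    have hsd : s ≠ d := by
      rintro rfl
      exact hd1 hs
    have q2 := a₂ s (by simp [hs])
    have q3 := a₃ s (by simp [hs])
    rw [he₂ s (hXW' s hsW hsd)] at q2
    rw [he₃ s (hXW' s hsW hsd)] at q3
    omega
  have fR2 : ∀ s ∈ R₂, δ₃ s ≤ δ₂ s := by
    intro s hs
    have hsW : s ∉ W := fun hh => Finset.disjoint_left.1 hWR₂ hh hs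
    have hsd : s ≠ d := by
      rintro rfl
      exact hd2 hs
    have q3 := a₃ s (by simp [hs])
    rw [he₃ s (hXW' s hsW hsd)] at q3
    omega
  have fY : ∀ y ∈ Y, δ₃ y ≤ 1 := by
    intro y hy
    have hyW : y ∉ W := fun hh => Finset.disjoint_left.1 hWY hh hy
    have hyd : y ≠ d := by
      rintro rfl
      exact hYd hy
    have q3 := a₃ y (by simp [hy])
    rw [he₃ y (hXW' y hyW hyd)] at q3
    have q2 := b₂ y hy
    omega
  refine ⟨δ₃, ?_, fW, fY, ?_, ?_⟩
  · have hU : W ∪ (insert d (R₁ ∪ R₂ ∪ R₃) ∪ Y) = W ∪ (R₁ ∪ {d}) ∪ (R₂ ∪ Y) ∪ (R₃ ∪ ∅) := by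
      ext z
      simp only [Finset.mem_union, Finset.mem_insert, Finset.mem_singleton,
        Finset.notMem_empty, or_false]
      tauto
    rw [hU]
    exact g₃
  · intro s hs
    rw [Finset.mem_insert, Finset.mem_union, Finset.mem_union] at hs
    rcases hs with rfl | (hs | hs) | hs
    · omega
    · exact (fR1 s hs).trans (k₁ s hs)
    · exact (fR2 s hs).trans (k₂ s hs)
    · exact k₃ s hs
  · have h123 : Disjoint (R₁ ∪ R₂) R₃ := Finset.disjoint_union_left.2 ⟨h13, h23⟩
    rw [Finset.sum_insert hd, Finset.sum_union h123, Finset.sum_union h12]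
    have q1 : ∑ s ∈ R₁, (δ₃ s - 2) ≤ c₁ :=
      (Finset.sum_le_sum fun s hs => Nat.sub_le_sub_right (fR1 s hs) 2).trans s₁
    have q2 : ∑ s ∈ R₂, (δ₃ s - 2) ≤ c₂ :=
      (Finset.sum_le_sum fun s hs => Nat.sub_le_sub_right (fR2 s hs) 2).trans s₂
    omega

/-- The centre `d` and the three smaller triangles of a subdivided triangle `abc`. -/
structure Nd (G : SimpleGraph V) (a b c d : V) (A B C : Finset V) (f g h : ℕ) : Prop where
  rA : Reg G d b c A f
  rB : Reg G a d c B g
  rC : Reg G a b d C h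
  ha : a ∉ insert d (A ∪ B ∪ C)
  hb : b ∉ insert d (A ∪ B ∪ C)
  hc : c ∉ insert d (A ∪ B ∪ C)
  hd : d ∉ A ∪ B ∪ C
  hAB : Disjoint A B
  hAC : Disjoint A C
  hBC : Disjoint B C

theorem union_perm12 (A B C : Finset V) : A ∪ B ∪ C = B ∪ A ∪ C := by
  rw [Finset.union_comm A B]

theorem union_perm23 (A B C : Finset V) : A ∪ B ∪ C = A ∪ C ∪ B := by
  rw [Finset.union_assoc, Finset.union_comm B C, ← Finset.union_assoc]

theorem Nd.swap12 {G : SimpleGraph V} {a b c d : V} {A B C : Finset V} {f g h : ℕ}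
    (n : Nd G a b c d A B C f g h) : Nd G b a c d B A C g f h := by
  obtain ⟨rA, rB, rC, ha, hb, hc, hd, hAB, hAC, hBC⟩ := n
  rw [union_perm12] at ha hb hc hd
  exact ⟨rB.swap12, rA.swap12, rC.swap12, hb, ha, hc, hd, hAB.symm, hBC, hAC⟩

theorem Nd.swap23 {G : SimpleGraph V} {a b c d : V} {A B C : Finset V} {f g h : ℕ}
    (n : Nd G a b c d A B C f g h) : Nd G a c b d A C B f h g := by
  obtain ⟨rA, rB, rC, ha, hb, hc, hd, hAB, hAC, hBC⟩ := n
  rw [union_perm23] at ha hb hc hd
  exact ⟨rA.swap23, rC.swap23, rB.swap23, ha, hc, hb, hd, hAC, hAB, hBC.symm⟩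

theorem Reg.cases' {G : SimpleGraph V} {a b c : V} {S : Finset V} {k : ℕ}
    (r : Reg G a b c S k) : (S = ∅ ∧ k = 0) ∨ ∃ (d : V) (A B C : Finset V) (f g h : ℕ),
      Nd G a b c d A B C f g h ∧ S = insert d (A ∪ B ∪ C) ∧
      k = f + g + h + if A = ∅ ∨ B = ∅ ∨ C = ∅ then 0 else 1 := by
  cases r with
  | nil _ _ _ => exact Or.inl ⟨rfl, rfl⟩
  | node hA hB hC ha hb hc hd hAB hAC hBC hk =>
    exact Or.inr ⟨_, _, _, _, _, _, _, ⟨hA, hB, hC, ha, hb, hc, hd, hAB, hAC, hBC⟩, rfl, hk⟩

/-- The indicator of a vertex. -/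
def ind (x : V) : V → ℕ := fun w => if w = x then 1 else 0

theorem ind_self (x : V) : ind x x = 1 := by simp [ind]

theorem ind_ne {x w : V} (h : w ≠ x) : ind x w = 0 := by simp [ind, h]

theorem Nd.ne {G : SimpleGraph V} {a b c d : V} {A B C : Finset V} {f g h : ℕ}
    (n : Nd G a b c d A B C f g h) : a ≠ b ∧ a ≠ c ∧ b ≠ c ∧ a ≠ d ∧ b ≠ d ∧ c ≠ d := by
  have h1 := n.rA.adj
  have h2 := n.rB.adj
  have h3 := n.rC.adj
  exact ⟨h3.1.ne, h2.2.1.ne, h1.2.2.ne, h2.1.ne, h1.1.ne.symm, h1.2.1.ne.symm⟩

theorem Nd.disjY {G : SimpleGraph V} {a b c d : V} {A B C : Finset V} {f g h : ℕ}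
    (n : Nd G a b c d A B C f g h) : Disjoint {b} (insert d (A ∪ B ∪ C)) := by
  rw [Finset.disjoint_singleton_left]
  exact n.hb

/-- Centre composition for the region `abc`, in the order `a`, then centre, then `b`. The pieces
run over `R₁, R₂, R₃`, a permutation of `A, B, C`. -/
theorem Nd.comp {G : SimpleGraph V} {a b c d : V} {A B C : Finset V} {f g h : ℕ}
    (n : Nd G a b c d A B C f g h) {X X₁ X₂ X₃ Y R₁ R₂ R₃ : Finset V}
    {e e₁ e₂ e₃ : V → ℕ} {c₁ c₂ c₃ t k : ℕ}
    (P₁ : Pc G X₁ {d} R₁ e₁ c₁) (P₂ : Pc G X₂ Y R₂ e₂ c₂) (P₃ : Pc G X₃ ∅ R₃ e₃ c₃)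
    (hX₁ : X₁ ⊆ X) (hX₂ : X₂ ⊆ insert d X) (hX₃ : X₃ ⊆ insert d X)
    (hR : R₁ ∪ R₂ ∪ R₃ = A ∪ B ∪ C)
    (h12 : Disjoint R₁ R₂) (h13 : Disjoint R₁ R₃) (h23 : Disjoint R₂ R₃)
    (hY : Y = ∅ ∨ Y = {a} ∨ Y = {b} ∨ Y = {c})
    (he₂ : ∀ w, w ∉ insert d X → e₂ w = 0) (he₃ : ∀ w, w ∉ insert d X → e₃ w = 0)
    (he : ∀ w, w ≠ d → e₁ w + e₂ w + e₃ w ≤ e w)
    (ht : 1 + e₂ d + e₃ d ≤ 2 + t) (ht1 : t ≤ 1) (hk : c₁ + c₂ + c₃ + t ≤ k) :
    Pc G X Y (insert d (A ∪ B ∪ C)) e k := by
  have hd := n.hd
  have hYd : Disjoint Y (insert d (A ∪ B ∪ C)) := by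
    rcases hY with rfl | rfl | rfl | rfl
    · exact Finset.disjoint_empty_left _
    · rw [Finset.disjoint_singleton_left]; exact n.ha
    · rw [Finset.disjoint_singleton_left]; exact n.hb
    · rw [Finset.disjoint_singleton_left]; exact n.hc
  rw [← hR] at hd hYd ⊢
  have key := Pc.comp P₁ P₂ P₃ hX₁ hX₂ hX₃ hd h12 h13 h23 hYd he₂ he₃ he ht ht1
  intro W δ hG hXW hWS hWY
  obtain ⟨δ', g1, g2, g3, g4, g5⟩ := key W δ hG hXW hWS hWY
  exact ⟨δ', g1, g2, g3, g4, g5.trans hk⟩

/-- The two basic pieces of a region: from the corner `a` to the corner `b`, and hanging at `a`. -/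
theorem Reg.base {G : SimpleGraph V} : ∀ (N : ℕ) {a b c : V} {S : Finset V} {k : ℕ},
    Reg G a b c S k → S.card ≤ N → Pc G {a} {b} S (ind a) k ∧ Pc G {a} ∅ S (ind a) k := by
  intro N
  induction N with
  | zero =>
    intro a b c S k r hN
    have hS : S = ∅ := by
      rw [← Finset.card_eq_zero]; omega
    have hk : k = 0 := by
      rcases r.card with ⟨_, h⟩ | ⟨h, _⟩
      · exact h
      · exact absurd hS h
    subst hS; subst hk
    refine ⟨Pc.edge r.adj.1, ?_⟩
    intro W δ h _ _ _
    refine ⟨δ, by simpa using h, fun w _ => Nat.le_add_right _ _, by simp, by simp, by simp⟩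
  | succ N ih =>
    intro a b c S k r hN
    rcases r.cases' with ⟨hS, hk⟩ | ⟨d, A, B, C, f, g, h, n, hS, hk⟩
    · subst hS; subst hk
      exact ih r (by simp)
    · have hABC : Disjoint (A ∪ B) C := Finset.disjoint_union_left.2 ⟨n.hAC, n.hBC⟩
      have hcard : S.card = A.card + B.card + C.card + 1 := by
        rw [hS, Finset.card_insert_of_notMem n.hd, Finset.card_union_of_disjoint hABC,
          Finset.card_union_of_disjoint n.hAB]
      have hne := n.ne
      -- basic pieces of the three smaller triangles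
      have pA1 : Pc G {d} {b} A (ind d) f := (ih n.rA (by omega)).1
      have pA0 : Pc G {d} ∅ A (ind d) f := (ih n.rA (by omega)).2
      have pB1 : Pc G {a} {d} B (ind a) g := (ih n.rB (by omega)).1
      have pB0 : Pc G {d} ∅ B (ind d) g := (ih n.rB.swap12 (by omega)).2
      have pC1 : Pc G {a} {d} C (ind a) h := (ih n.rC.swap23 (by omega)).1
      have pC2 : Pc G {d} {b} C (ind d) h := (ih n.rC.swap13 (by omega)).1
      have pC0 : Pc G {d} ∅ C (ind d) h := (ih n.rC.swap13 (by omega)).2
      have hAB := n.hAB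
      have hAC := n.hAC
      have hBC := n.hBC
      rw [hS]
      have e2 : ∀ w, w ∉ insert d ({a} : Finset V) → ind d w = 0 := by
        intro w hw
        apply ind_ne
        rintro rfl
        exact hw (Finset.mem_insert_self _ _)
      have e0 : ∀ w, w ∉ insert d ({a} : Finset V) → (fun _ : V => (0 : ℕ)) w = 0 := by
        intro w _
        rfl
      have ee : ∀ w, w ≠ d → ind a w + ind d w + ind d w ≤ ind a w := by
        intro w hw
        rw [ind_ne hw]
        omega
      have ee0 : ∀ w, w ≠ d → ind a w + ind d w + (fun _ : V => (0 : ℕ)) w ≤ ind a w := by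
        intro w hw
        rw [ind_ne hw]
        simp
      have hdd : ({d} : Finset V) ⊆ insert d {a} := by simp
      by_cases hfull : A = ∅ ∨ B = ∅ ∨ C = ∅
      · rw [if_pos hfull] at hk
        have tr := Pc.triv G {d}
        rcases hfull with h0 | h0 | h0
        · -- A empty
          subst h0
          have hf : f = 0 := by
            rcases n.rA.card with ⟨_, h⟩ | ⟨h, _⟩
            · exact h
            · exact absurd rfl h
          constructor
          · exact n.comp pB1 pC2 tr (by simp) hdd hdd (by simp) hBC (by simp) (by simp)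
              (by simp) e2 e0 ee0 (by simp [ind_self]) (Nat.zero_le 1) (by omega)
          · exact n.comp pB1 pC0 tr (by simp) hdd hdd (by simp) hBC (by simp) (by simp)
              (by simp) e2 e0 ee0 (by simp [ind_self]) (Nat.zero_le 1) (by omega)
        · subst h0
          have hg : g = 0 := by
            rcases n.rB.card with ⟨_, h⟩ | ⟨h, _⟩
            · exact h
            · exact absurd rfl h
          constructor
          · exact n.comp pC1 pA1 tr (by simp) hdd hdd (by simp [Finset.union_comm]) hAC.symm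
              (by simp) (by simp) (by simp) e2 e0 ee0 (by simp [ind_self]) (Nat.zero_le 1)
              (by omega)
          · exact n.comp pC1 pA0 tr (by simp) hdd hdd (by simp [Finset.union_comm]) hAC.symm
              (by simp) (by simp) (by simp) e2 e0 ee0 (by simp [ind_self]) (Nat.zero_le 1)
              (by omega)
        · subst h0
          have hh : h = 0 := by
            rcases n.rC.card with ⟨_, h⟩ | ⟨h, _⟩
            · exact h
            · exact absurd rfl h
          constructor
          · exact n.comp pB1 pA1 tr (by simp) hdd hdd (by simp [Finset.union_comm]) hAB.symm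
              (by simp) (by simp) (by simp) e2 e0 ee0 (by simp [ind_self]) (Nat.zero_le 1)
              (by omega)
          · exact n.comp pB1 pA0 tr (by simp) hdd hdd (by simp [Finset.union_comm]) hAB.symm
              (by simp) (by simp) (by simp) e2 e0 ee0 (by simp [ind_self]) (Nat.zero_le 1)
              (by omega)
      · rw [if_neg hfull] at hk
        have hU : B ∪ A ∪ C = A ∪ B ∪ C := (union_perm12 A B C).symm
        constructor
        · exact n.comp pB1 pA1 pC0 (by simp) hdd hdd hU hAB.symm hBC hAC (by simp) e2 e2 ee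
            (by simp [ind_self]) le_rfl (by omega)
        · exact n.comp pB1 pA0 pC0 (by simp) hdd hdd hU hAB.symm hBC hAC (by simp) e2 e2 ee
            (by simp [ind_self]) le_rfl (by omega)

theorem Reg.go {G : SimpleGraph V} {a b c : V} {S : Finset V} {k : ℕ} (r : Reg G a b c S k) :
    Pc G {a} {b} S (ind a) k := (r.base S.card le_rfl).1

theorem Reg.hang {G : SimpleGraph V} {a b c : V} {S : Finset V} {k : ℕ} (r : Reg G a b c S k) :
    Pc G {a} ∅ S (ind a) k := (r.base S.card le_rfl).2

/-! ### Saving one at a full centre with a spare degree at the corner `v` -/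

/-- Half of the saving pieces. -/
def Sav1 (G : SimpleGraph V) (v x y : V) (S : Finset V) (c : ℕ) : Prop :=
  Pc G {v} {x} S (fun w => ind v w + ind v w) c ∧
    Pc G {x, v} {y} S (fun w => ind x w + ind v w) c

/-- The saving pieces: with one spare degree at `v`, excess less than `k`. -/
def Sav (G : SimpleGraph V) (v x y : V) (S : Finset V) (k : ℕ) : Prop :=
  ∃ c, c + 1 ≤ k ∧ Sav1 G v x y S c ∧ Sav1 G v y x S c

theorem Sav.swap {G : SimpleGraph V} {v x y : V} {S : Finset V} {k : ℕ}
    (h : Sav G v x y S k) : Sav G v y x S k := by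
  obtain ⟨c, hc, h1, h2⟩ := h
  exact ⟨c, hc, h2, h1⟩

theorem Nd.full1 {G : SimpleGraph V} {v x y d : V} {A B C : Finset V} {f g h : ℕ}
    (n : Nd G v x y d A B C f g h) : Sav1 G v x y (insert d (A ∪ B ∪ C)) (f + g + h) := by
  obtain ⟨hvx, hvy, hxy, hvd, hxd, hyd⟩ := n.ne
  have hAB := n.hAB
  have hAC := n.hAC
  have hBC := n.hBC
  constructor
  · refine n.comp n.rB.go n.rA.go n.rC.hang (le_refl _) (by simp) (by simp) ?_ hAB.symm hBC hAC
      (by simp) ?_ ?_ ?_ ?_ (Nat.zero_le 1) (by omega)
    · rw [union_perm12]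
    · intro w hw
      apply ind_ne
      rintro rfl
      simp at hw
    · intro w hw
      apply ind_ne
      rintro rfl
      simp at hw
    · intro w hw
      rw [ind_ne (x := d) hw]
      omega
    · rw [ind_self, ind_ne hvd.symm]
  · refine n.comp n.rC.swap12.swap23.go n.rA.swap23.go n.rB.hang (by simp) (by simp) (by simp) ?_
      hAC.symm hBC.symm hAB (by simp) ?_ ?_ ?_ ?_ (Nat.zero_le 1) (by omega)
    · ext z; simp only [Finset.mem_union]; tauto
    · intro w hw
      apply ind_ne
      rintro rfl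
      simp at hw
    · intro w hw
      apply ind_ne
      rintro rfl
      simp at hw
    · intro w hw
      rw [ind_ne (x := d) hw]
      omega
    · rw [ind_self, ind_ne hvd.symm]

theorem Nd.full {G : SimpleGraph V} {v x y d : V} {A B C : Finset V} {f g h : ℕ}
    (n : Nd G v x y d A B C f g h) : Sav G v x y (insert d (A ∪ B ∪ C)) (f + g + h + 1) := by
  refine ⟨f + g + h, le_rfl, n.full1, ?_⟩
  have h1 := n.swap23.full1
  rw [← union_perm23] at h1
  have h2 : f + h + g = f + g + h := by omega
  rw [h2] at h1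
  exact h1

theorem Nd.step {G : SimpleGraph V} {v x y d : V} {A B C : Finset V} {f g h : ℕ}
    (n : Nd G v x y d A B C f g h) (hAC0 : A = ∅ ∨ C = ∅) (hs : Sav G v d y B g) :
    Sav G v x y (insert d (A ∪ B ∪ C)) (f + g + h) := by
  obtain ⟨hvx, hvy, hxy, hvd, hxd, hyd⟩ := n.ne
  have hAB := n.hAB
  have hAC := n.hAC
  have hBC := n.hBC
  obtain ⟨c, hc, ⟨s1, s2⟩, ⟨s3, s4⟩⟩ := hs
  have z1 : ind d d = 1 := ind_self d
  have z2 : ind v d = 0 := ind_ne hvd.symm
  have tr := Pc.triv G {d}
  rcases hAC0 with h0 | h0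
  · subst h0
    have hf : f = 0 := by
      rcases n.rA.card with ⟨_, h⟩ | ⟨h, _⟩
      · exact h
      · exact absurd rfl h
    subst hf
    refine ⟨c + h, by omega, ⟨?_, ?_⟩, ⟨?_, ?_⟩⟩
    · -- v to x : B then C
      refine n.comp s1 n.rC.swap13.go tr (le_refl _) (by simp) (by simp) ?_ hBC (by simp)
        (by simp) (by simp) ?_ ?_ ?_ ?_ (Nat.zero_le 1) (by omega)
      · ext z; simp only [Finset.mem_union, Finset.notMem_empty]; tauto
      · intro w hw
        apply ind_ne
        rintro rfl
        simp at hw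
      · intro w _; rfl
      · intro w hw
        rw [ind_ne (x := d) hw]
        omega
      · omega
    · -- x to y : C then B
      refine n.comp n.rC.swap12.swap23.go s2 tr (by simp) ?_ (by simp) ?_ hBC.symm (by simp)
        (by simp) (by simp) ?_ ?_ ?_ ?_ (Nat.zero_le 1) (by omega)
      · intro z hz
        simp only [Finset.mem_insert, Finset.mem_singleton] at hz ⊢
        tauto
      · ext z; simp only [Finset.mem_union, Finset.notMem_empty]; tauto
      · intro w hw
        simp only [Finset.mem_insert, Finset.mem_singleton, not_or] at hw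
        rw [ind_ne hw.1, ind_ne hw.2.2]
      · intro w _; rfl
      · intro w hw
        rw [ind_ne (x := d) hw]
        omega
      · omega
    · -- v to y : C then B
      refine n.comp n.rC.swap23.go s2 tr (le_refl _) ?_ (by simp) ?_ hBC.symm (by simp)
        (by simp) (by simp) ?_ ?_ ?_ ?_ (Nat.zero_le 1) (by omega)
      · intro z hz
        simp only [Finset.mem_insert, Finset.mem_singleton] at hz ⊢
        tauto
      · ext z; simp only [Finset.mem_union, Finset.notMem_empty]; tauto
      · intro w hw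
        simp only [Finset.mem_insert, Finset.mem_singleton, not_or] at hw
        rw [ind_ne hw.1, ind_ne hw.2]
      · intro w _; rfl
      · intro w hw
        rw [ind_ne (x := d) hw]
        omega
      · omega
    · -- y to x : B then C
      refine n.comp s4 n.rC.swap13.go tr (le_refl _) (by simp) (by simp) ?_ hBC (by simp)
        (by simp) (by simp) ?_ ?_ ?_ ?_ (Nat.zero_le 1) (by omega)
      · ext z; simp only [Finset.mem_union, Finset.notMem_empty]; tauto
      · intro w hw
        apply ind_ne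
        rintro rfl
        simp at hw
      · intro w _; rfl
      · intro w hw
        rw [ind_ne (x := d) hw]
        omega
      · omega
  · subst h0
    have hh : h = 0 := by
      rcases n.rC.card with ⟨_, h⟩ | ⟨h, _⟩
      · exact h
      · exact absurd rfl h
    subst hh
    refine ⟨c + f, by omega, ⟨?_, ?_⟩, ⟨?_, ?_⟩⟩
    · -- v to x : B then A
      refine n.comp s1 n.rA.go tr (le_refl _) (by simp) (by simp) ?_ hAB.symm (by simp)
        (by simp) (by simp) ?_ ?_ ?_ ?_ (Nat.zero_le 1) (by omega)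
      · ext z; simp only [Finset.mem_union, Finset.notMem_empty]; tauto
      · intro w hw
        apply ind_ne
        rintro rfl
        simp at hw
      · intro w _; rfl
      · intro w hw
        rw [ind_ne (x := d) hw]
        omega
      · omega
    · -- x to y : A then B
      refine n.comp n.rA.swap12.go s2 tr (by simp) ?_ (by simp) ?_ hAB (by simp)
        (by simp) (by simp) ?_ ?_ ?_ ?_ (Nat.zero_le 1) (by omega)
      · intro z hz
        simp only [Finset.mem_insert, Finset.mem_singleton] at hz ⊢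
        tauto
      · ext z; simp only [Finset.mem_union, Finset.notMem_empty]
      · intro w hw
        simp only [Finset.mem_insert, Finset.mem_singleton, not_or] at hw
        rw [ind_ne hw.1, ind_ne hw.2.2]
      · intro w _; rfl
      · intro w hw
        rw [ind_ne (x := d) hw]
        omega
      · omega
    · -- v to y : B then A
      refine n.comp s1 n.rA.swap23.go tr (le_refl _) (by simp) (by simp) ?_ hAB.symm (by simp)
        (by simp) (by simp) ?_ ?_ ?_ ?_ (Nat.zero_le 1) (by omega)
      · ext z; simp only [Finset.mem_union, Finset.notMem_empty]; tauto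
      · intro w hw
        apply ind_ne
        rintro rfl
        simp at hw
      · intro w _; rfl
      · intro w hw
        rw [ind_ne (x := d) hw]
        omega
      · omega
    · -- y to x : B then A
      refine n.comp s4 n.rA.go tr (le_refl _) (by simp) (by simp) ?_ hAB.symm (by simp)
        (by simp) (by simp) ?_ ?_ ?_ ?_ (Nat.zero_le 1) (by omega)
      · ext z; simp only [Finset.mem_union, Finset.notMem_empty]; tauto
      · intro w hw
        apply ind_ne
        rintro rfl
        simp at hw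
      · intro w _; rfl
      · intro w hw
        rw [ind_ne (x := d) hw]
        omega
      · omega

/-- Number of corners at which a spare degree saves one: all three. -/
def Three (G : SimpleGraph V) (a b c : V) (S : Finset V) (k : ℕ) : Prop :=
  Sav G a b c S k ∧ Sav G b a c S k ∧ Sav G c a b S k

/-- At least two of the three corners. -/
def Two (G : SimpleGraph V) (a b c : V) (S : Finset V) (k : ℕ) : Prop :=
  (Sav G a b c S k ∧ Sav G b a c S k) ∨ (Sav G a b c S k ∧ Sav G c a b S k) ∨
    (Sav G b a c S k ∧ Sav G c a b S k)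

/-- At least one of the three corners. -/
def One (G : SimpleGraph V) (a b c : V) (S : Finset V) (k : ℕ) : Prop :=
  Sav G a b c S k ∨ Sav G b a c S k ∨ Sav G c a b S k

theorem Two.swap12 {G : SimpleGraph V} {a b c : V} {S : Finset V} {k : ℕ}
    (h : Two G a b c S k) : Two G b a c S k := by
  rcases h with ⟨h1, h2⟩ | ⟨h1, h2⟩ | ⟨h1, h2⟩
  · exact Or.inl ⟨h2, h1⟩
  · exact Or.inr (Or.inr ⟨h1, h2.swap⟩)
  · exact Or.inr (Or.inl ⟨h1, h2.swap⟩)

theorem Two.swap23 {G : SimpleGraph V} {a b c : V} {S : Finset V} {k : ℕ}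
    (h : Two G a b c S k) : Two G a c b S k := by
  rcases h with ⟨h1, h2⟩ | ⟨h1, h2⟩ | ⟨h1, h2⟩
  · exact Or.inr (Or.inl ⟨h1.swap, h2⟩)
  · exact Or.inl ⟨h1.swap, h2⟩
  · exact Or.inr (Or.inr ⟨h2, h1⟩)

theorem One.swap12 {G : SimpleGraph V} {a b c : V} {S : Finset V} {k : ℕ}
    (h : One G a b c S k) : One G b a c S k := by
  rcases h with h1 | h1 | h1
  · exact Or.inr (Or.inl h1)
  · exact Or.inl h1
  · exact Or.inr (Or.inr h1.swap)

theorem One.swap23 {G : SimpleGraph V} {a b c : V} {S : Finset V} {k : ℕ}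
    (h : One G a b c S k) : One G a c b S k := by
  rcases h with h1 | h1 | h1
  · exact Or.inl h1.swap
  · exact Or.inr (Or.inr h1)
  · exact Or.inr (Or.inl h1)

theorem Nd.perm12 {G : SimpleGraph V} {a b c d : V} {A B C : Finset V} {f g h : ℕ}
    (_n : Nd G a b c d A B C f g h) {P : Finset V → Prop} (hP : P (insert d (B ∪ A ∪ C))) :
    P (insert d (A ∪ B ∪ C)) := by
  rw [union_perm12]; exact hP

theorem Nd.three {G : SimpleGraph V} {a b c d : V} {A B C : Finset V} {f g h : ℕ}
    (n : Nd G a b c d A B C f g h) :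
    Three G a b c (insert d (A ∪ B ∪ C)) (f + g + h + 1) := by
  refine ⟨n.full, ?_, ?_⟩
  · have h1 := n.swap12.full
    rw [← union_perm12] at h1
    have h2 : g + f + h + 1 = f + g + h + 1 := by omega
    rw [h2] at h1
    exact h1
  · have h1 := n.swap23.swap12.full
    have h2 : h + f + g + 1 = f + g + h + 1 := by omega
    have h3 : C ∪ A ∪ B = A ∪ B ∪ C := by
      ext z; simp only [Finset.mem_union]; tauto
    rw [h2, h3] at h1
    exact h1

/-- The child in the middle position. -/
theorem Nd.mid {G : SimpleGraph V} {a b c d : V} {A B C : Finset V} {f g h : ℕ}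
    (n : Nd G a b c d A B C f g h) (h0 : A = ∅ ∨ C = ∅) :
    (Sav G a d c B g → Sav G a b c (insert d (A ∪ B ∪ C)) (f + g + h)) ∧
    (Sav G c d a B g → Sav G c a b (insert d (A ∪ B ∪ C)) (f + g + h)) := by
  refine ⟨fun hs => n.step h0 hs, fun hs => ?_⟩
  have n' := n.swap12.swap23.swap12
  have h1 := n'.step h0.symm hs
  have h2 : h + g + f = f + g + h := by omega
  have h3 : C ∪ B ∪ A = A ∪ B ∪ C := by
    ext z; simp only [Finset.mem_union]; tauto
  rw [h2, h3] at h1
  exact h1.swap

theorem Nd.cardS {G : SimpleGraph V} {a b c d : V} {A B C : Finset V} {f g h : ℕ}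
    (n : Nd G a b c d A B C f g h) :
    (insert d (A ∪ B ∪ C)).card = A.card + B.card + C.card + 1 := by
  have hABC : Disjoint (A ∪ B) C := Finset.disjoint_union_left.2 ⟨n.hAC, n.hBC⟩
  rw [Finset.card_insert_of_notMem n.hd, Finset.card_union_of_disjoint hABC,
    Finset.card_union_of_disjoint n.hAB]

theorem Reg.le_card {G : SimpleGraph V} {a b c : V} {S : Finset V} {f : ℕ}
    (h : Reg G a b c S f) : 3 * f ≤ S.card := by
  rcases h.card with ⟨_, h1⟩ | ⟨_, h1⟩ <;> omega

theorem Reg.ne_of_pos {G : SimpleGraph V} {a b c : V} {S : Finset V} {f : ℕ}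
    (h : Reg G a b c S f) (hf : 1 ≤ f) : S ≠ ∅ ∧ 3 * f + 1 ≤ S.card := by
  rcases h.card with ⟨_, h1⟩ | ⟨h0, h1⟩
  · omega
  · exact ⟨h0, h1⟩

theorem Reg.slack0 {G : SimpleGraph V} {a b c : V} {S : Finset V} {k : ℕ}
    (r : Reg G a b c S k) (hk : 1 ≤ k) (hc : S.card ≤ 3 * k + 1) : Three G a b c S k := by
  rcases r.cases' with ⟨_, h0⟩ | ⟨d, A, B, C, f, g, h, n, hS, hk'⟩
  · omega
  · by_cases hfull : A = ∅ ∨ B = ∅ ∨ C = ∅
    · exfalso
      rw [if_pos hfull] at hk'
      rw [hS, n.cardS] at hc
      have q1 := n.rA.le_card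
      have q2 := n.rB.le_card
      have q3 := n.rC.le_card
      rcases Nat.eq_zero_or_pos f with hf | hf
      · rcases Nat.eq_zero_or_pos g with hg | hg
        · have := (n.rC.ne_of_pos (by omega)).2
          omega
        · have := (n.rB.ne_of_pos hg).2
          omega
      · have := (n.rA.ne_of_pos hf).2
        omega
    · rw [if_neg hfull] at hk'
      rw [hS, hk']
      exact n.three

theorem Reg.slack1 {G : SimpleGraph V} {a b c : V} {S : Finset V} {k : ℕ}
    (r : Reg G a b c S k) (hk : 1 ≤ k) (hc : S.card ≤ 3 * k + 2) : Two G a b c S k := by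
  rcases r.cases' with ⟨_, h0⟩ | ⟨d, A, B, C, f, g, h, n, hS, hk'⟩
  · omega
  · by_cases hfull : A = ∅ ∨ B = ∅ ∨ C = ∅
    · rw [if_pos hfull] at hk'
      rw [hS, n.cardS] at hc
      have q1 := n.rA.le_card
      have q2 := n.rB.le_card
      have q3 := n.rC.le_card
      have mid : ∀ {a b c : V} {A B C : Finset V} {f g h : ℕ}, Nd G a b c d A B C f g h →
          (A = ∅ ∨ B = ∅ ∨ C = ∅) → 1 ≤ g → B.card ≤ 3 * g + 1 →
          Two G a b c (insert d (A ∪ B ∪ C)) (f + g + h) := by
        intro a b c A B C f g h n hfull hg hB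
        have hB0 := (n.rB.ne_of_pos hg).1
        have h0 : A = ∅ ∨ C = ∅ := by tauto
        obtain ⟨t1, _, t3⟩ := n.rB.slack0 hg hB
        exact Or.inr (Or.inl ⟨(n.mid h0).1 t1, (n.mid h0).2 t3.swap⟩)
      have hkk : k = f + g + h := by omega
      rw [hS, hkk]
      rcases Nat.eq_zero_or_pos g with hg | hg
      · rcases Nat.eq_zero_or_pos f with hf | hf
        · have h1 := mid n.swap23 (by tauto) (by omega) (by omega)
          rw [← union_perm23] at h1
          have h2 : f + h + g = f + g + h := by omega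
          rw [h2] at h1
          exact h1.swap23
        · have h1 := mid n.swap12 (by tauto) hf (by omega)
          rw [← union_perm12] at h1
          have h2 : g + f + h = f + g + h := by omega
          rw [h2] at h1
          exact h1.swap12
      · exact mid n hfull hg (by omega)
    · rw [if_neg hfull] at hk'
      rw [hS, hk']
      exact Or.inl ⟨n.three.1, n.three.2.1⟩

theorem Reg.slack2 {G : SimpleGraph V} {a b c : V} {S : Finset V} {k : ℕ}
    (r : Reg G a b c S k) (hk : 1 ≤ k) (hc : S.card ≤ 3 * k + 3) : One G a b c S k := by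
  rcases r.cases' with ⟨_, h0⟩ | ⟨d, A, B, C, f, g, h, n, hS, hk'⟩
  · omega
  · by_cases hfull : A = ∅ ∨ B = ∅ ∨ C = ∅
    · rw [if_pos hfull] at hk'
      rw [hS, n.cardS] at hc
      have q1 := n.rA.le_card
      have q2 := n.rB.le_card
      have q3 := n.rC.le_card
      have mid : ∀ {a b c : V} {A B C : Finset V} {f g h : ℕ}, Nd G a b c d A B C f g h →
          (A = ∅ ∨ B = ∅ ∨ C = ∅) → 1 ≤ g → B.card ≤ 3 * g + 2 →
          One G a b c (insert d (A ∪ B ∪ C)) (f + g + h) := by
        intro a b c A B C f g h n hfull hg hB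
        have hB0 := (n.rB.ne_of_pos hg).1
        have h0 : A = ∅ ∨ C = ∅ := by tauto
        rcases n.rB.slack1 hg hB with ⟨t1, _⟩ | ⟨t1, _⟩ | ⟨_, t3⟩
        · exact Or.inl ((n.mid h0).1 t1)
        · exact Or.inl ((n.mid h0).1 t1)
        · exact Or.inr (Or.inr ((n.mid h0).2 t3.swap))
      have hkk : k = f + g + h := by omega
      rw [hS, hkk]
      rcases Nat.eq_zero_or_pos g with hg | hg
      · rcases Nat.eq_zero_or_pos f with hf | hf
        · have h1 := mid n.swap23 (by tauto) (by omega) (by omega)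
          rw [← union_perm23] at h1
          have h2 : f + h + g = f + g + h := by omega
          rw [h2] at h1
          exact h1.swap23
        · have h1 := mid n.swap12 (by tauto) hf (by omega)
          rw [← union_perm12] at h1
          have h2 : g + f + h = f + g + h := by omega
          rw [h2] at h1
          exact h1.swap12
      · exact mid n hfull hg (by omega)
    · rw [if_neg hfull] at hk'
      rw [hS, hk']
      exact Or.inl n.three.1

/-! ### The root: a tetrahedron with its four regions -/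

/-- A tetrahedron `abcd` with its four recursively subdivided faces, covering all vertices. -/
structure Wh (G : SimpleGraph V) (a b c d : V) (A B C D : Finset V) (f g h k : ℕ) : Prop where
  rA : Reg G b c d A f
  rB : Reg G a c d B g
  rC : Reg G a b d C h
  rD : Reg G a b c D k
  hAB : Disjoint A B
  hAC : Disjoint A C
  hAD : Disjoint A D
  hBC : Disjoint B C
  hBD : Disjoint B D
  hCD : Disjoint C D
  ha : a ∉ A ∪ B ∪ C ∪ D
  hb : b ∉ A ∪ B ∪ C ∪ D
  hc : c ∉ A ∪ B ∪ C ∪ D
  hd : d ∉ A ∪ B ∪ C ∪ D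
  cov : ∀ v : V, v = a ∨ v = b ∨ v = c ∨ v = d ∨ v ∈ A ∪ B ∪ C ∪ D

theorem Wh.swap12 {G : SimpleGraph V} {a b c d : V} {A B C D : Finset V} {f g h k : ℕ}
    (w : Wh G a b c d A B C D f g h k) : Wh G b a c d B A C D g f h k := by
  obtain ⟨rA, rB, rC, rD, hAB, hAC, hAD, hBC, hBD, hCD, ha, hb, hc, hd, cov⟩ := w
  have hU : A ∪ B ∪ C ∪ D = B ∪ A ∪ C ∪ D := by
    ext z; simp only [Finset.mem_union]; tauto
  rw [hU] at ha hb hc hd cov
  exact ⟨rB, rA, rC.swap12, rD.swap12, hAB.symm, hBC, hBD, hAC, hAD, hCD, hb, ha, hc, hd,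
    fun v => by have := cov v; tauto⟩

theorem Wh.swap23 {G : SimpleGraph V} {a b c d : V} {A B C D : Finset V} {f g h k : ℕ}
    (w : Wh G a b c d A B C D f g h k) : Wh G a c b d A C B D f h g k := by
  obtain ⟨rA, rB, rC, rD, hAB, hAC, hAD, hBC, hBD, hCD, ha, hb, hc, hd, cov⟩ := w
  have hU : A ∪ B ∪ C ∪ D = A ∪ C ∪ B ∪ D := by
    ext z; simp only [Finset.mem_union]; tauto
  rw [hU] at ha hb hc hd cov
  exact ⟨rA.swap12, rC, rB, rD.swap23, hAC, hAB, hAD, hBC.symm, hCD, hBD, ha, hc, hb, hd,
    fun v => by have := cov v; tauto⟩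

theorem Wh.swap34 {G : SimpleGraph V} {a b c d : V} {A B C D : Finset V} {f g h k : ℕ}
    (w : Wh G a b c d A B C D f g h k) : Wh G a b d c A B D C f g k h := by
  obtain ⟨rA, rB, rC, rD, hAB, hAC, hAD, hBC, hBD, hCD, ha, hb, hc, hd, cov⟩ := w
  have hU : A ∪ B ∪ C ∪ D = A ∪ B ∪ D ∪ C := by
    ext z; simp only [Finset.mem_union]; tauto
  rw [hU] at ha hb hc hd cov
  exact ⟨rA.swap23, rB.swap23, rD, rC, hAB, hAD, hAC, hBD, hBC, hCD.symm, ha, hb, hd, hc,
    fun v => by have := cov v; tauto⟩

/-- Bring the region `A` to the last position. -/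
theorem Wh.lastA {G : SimpleGraph V} {a b c d : V} {A B C D : Finset V} {f g h k : ℕ}
    (w : Wh G a b c d A B C D f g h k) : Wh G b c d a B C D A g h k f :=
  w.swap12.swap23.swap34

theorem Wh.lastB {G : SimpleGraph V} {a b c d : V} {A B C D : Finset V} {f g h k : ℕ}
    (w : Wh G a b c d A B C D f g h k) : Wh G a c d b A C D B f h k g :=
  w.swap23.swap34

theorem Wh.root {G : SimpleGraph V} [Fintype V] {a b c d : V} {A B C D : Finset V}
    {f g h k : ℕ} (w : Wh G a b c d A B C D f g h k) {e : V → ℕ} {m : ℕ}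
    (P : Pc G {d} {c} A e m) (he : e d ≤ 2) :
    ∃ δ : V → ℕ, GT G Finset.univ δ ∧ (∀ v, δ v ≤ 3) ∧ ∑ v, (δ v - 2) ≤ m + g + h + k := by
  obtain ⟨rA, rB, rC, rD, hAB, hAC, hAD, hBC, hBD, hCD, ha, hb, hc, hd, cov⟩ := w
  simp only [Finset.mem_union, not_or] at ha hb hc hd
  have hab := rC.adj.1.ne
  have hac := rB.adj.1.ne
  have had := rB.adj.2.1.ne
  have hbc := rA.adj.1.ne
  have hbd := rA.adj.2.1.ne
  have hcd := rA.adj.2.2.ne
  have P2 : Pc G {c} {b} D (ind c) k := rD.swap12.swap23.swap12.go
  have P3 : Pc G {b} {a} C (ind b) h := rC.swap12.go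
  have P4 : Pc G {a} ∅ B (ind a) g := rB.hang
  obtain ⟨δ₁, g₁, a₁, b₁, k₁, s₁⟩ := P {d} _ (GT.one d) (le_refl _)
    (by rw [Finset.disjoint_singleton_left]; exact hd.1.1.1)
    (by rw [Finset.disjoint_singleton_left, Finset.mem_singleton]; exact hcd.symm)
  obtain ⟨δ₂, g₂, a₂, b₂, k₂, s₂⟩ := P2 _ δ₁ g₁ (by simp)
    (by
      rw [Finset.disjoint_union_left, Finset.disjoint_union_left, Finset.disjoint_singleton_left,
        Finset.disjoint_singleton_left]
      exact ⟨hd.2, hAD, hc.2⟩)
    (by
      rw [Finset.disjoint_singleton_right]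
      simp only [Finset.mem_union, Finset.mem_singleton, not_or]
      exact ⟨hbd, hb.1.1.1, hbc⟩)
  obtain ⟨δ₃, g₃, a₃, b₃, k₃, s₃⟩ := P3 _ δ₂ g₂ (by simp)
    (by
      rw [Finset.disjoint_left]
      intro z hz hzC
      simp only [Finset.mem_union, Finset.mem_singleton] at hz
      rcases hz with (rfl | hz | rfl) | hz | rfl
      · exact hd.1.2 hzC
      · exact Finset.disjoint_left.1 hAC hz hzC
      · exact hc.1.2 hzC
      · exact Finset.disjoint_left.1 hCD hzC hz
      · exact hb.1.2 hzC)
    (by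
      rw [Finset.disjoint_singleton_right]
      simp only [Finset.mem_union, Finset.mem_singleton, not_or]
      exact ⟨⟨had, ha.1.1.1, hac⟩, ha.2, hab⟩)
  obtain ⟨δ₄, g₄, a₄, b₄, k₄, s₄⟩ := P4 _ δ₃ g₃ (by simp)
    (by
      rw [Finset.disjoint_left]
      intro z hz hzB
      simp only [Finset.mem_union, Finset.mem_singleton] at hz
      rcases hz with ((rfl | hz | rfl) | hz | rfl) | hz | rfl
      · exact hd.1.1.2 hzB
      · exact Finset.disjoint_left.1 hAB hz hzB
      · exact hc.1.1.2 hzB
      · exact Finset.disjoint_left.1 hBD hzB hz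
      · exact hb.1.1.2 hzB
      · exact Finset.disjoint_left.1 hBC hzB hz
      · exact ha.1.1.2 hzB)
    (Finset.disjoint_empty_right _)
  have huniv : {d} ∪ (A ∪ {c}) ∪ (D ∪ {b}) ∪ (C ∪ {a}) ∪ (B ∪ ∅) = (Finset.univ : Finset V) := by
    ext z
    have := cov z
    simp only [Finset.mem_union, Finset.mem_singleton, Finset.notMem_empty, or_false,
      Finset.mem_univ, iff_true] at this ⊢
    tauto
  rw [huniv] at g₄
  -- degrees
  have fd : δ₄ d ≤ 2 := by
    have q1 := a₁ d (by simp)
    have q2 := a₂ d (by simp)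
    have q3 := a₃ d (by simp)
    have q4 := a₄ d (by simp)
    rw [ind_ne hcd.symm] at q2
    rw [ind_ne hbd.symm] at q3
    rw [ind_ne had.symm] at q4
    omega
  have fc : δ₄ c ≤ 2 := by
    have q1 := b₁ c (by simp)
    have q2 := a₂ c (by simp)
    have q3 := a₃ c (by simp)
    have q4 := a₄ c (by simp)
    rw [ind_self] at q2
    rw [ind_ne hbc.symm] at q3
    rw [ind_ne hac.symm] at q4
    omega
  have fb : δ₄ b ≤ 2 := by
    have q2 := b₂ b (by simp)
    have q3 := a₃ b (by simp)
    have q4 := a₄ b (by simp)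
    rw [ind_self] at q3
    rw [ind_ne hab.symm] at q4
    omega
  have fa : δ₄ a ≤ 2 := by
    have q3 := b₃ a (by simp)
    have q4 := a₄ a (by simp)
    rw [ind_self] at q4
    omega
  have fA : ∀ s ∈ A, δ₄ s ≤ δ₁ s := by
    intro s hs
    have q2 := a₂ s (by simp [hs])
    have q3 := a₃ s (by simp [hs])
    have q4 := a₄ s (by simp [hs])
    rw [ind_ne (by rintro rfl; exact hc.1.1.1 hs)] at q2
    rw [ind_ne (by rintro rfl; exact hb.1.1.1 hs)] at q3
    rw [ind_ne (by rintro rfl; exact ha.1.1.1 hs)] at q4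
    omega
  have fD : ∀ s ∈ D, δ₄ s ≤ δ₂ s := by
    intro s hs
    have q3 := a₃ s (by simp [hs])
    have q4 := a₄ s (by simp [hs])
    rw [ind_ne (by rintro rfl; exact hb.2 hs)] at q3
    rw [ind_ne (by rintro rfl; exact ha.2 hs)] at q4
    omega
  have fC : ∀ s ∈ C, δ₄ s ≤ δ₃ s := by
    intro s hs
    have q4 := a₄ s (by simp [hs])
    rw [ind_ne (by rintro rfl; exact ha.1.2 hs)] at q4
    omega
  refine ⟨δ₄, g₄, ?_, ?_⟩
  · intro v
    rcases cov v with rfl | rfl | rfl | rfl | hv
    · omega
    · omega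
    · omega
    · omega
    · simp only [Finset.mem_union] at hv
      rcases hv with ((hv | hv) | hv) | hv
      · exact (fA v hv).trans (k₁ v hv)
      · exact k₄ v hv
      · exact (fC v hv).trans (k₃ v hv)
      · exact (fD v hv).trans (k₂ v hv)
  · have hsub : ∑ v, (δ₄ v - 2) = ∑ v ∈ A ∪ B ∪ C ∪ D, (δ₄ v - 2) := by
      symm
      apply Finset.sum_subset (Finset.subset_univ _)
      intro v _ hv
      rcases cov v with rfl | rfl | rfl | rfl | hv'
      · omega
      · omega
      · omega
      · omega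
      · exact absurd hv' hv
    rw [hsub, Finset.sum_union (by
        rw [Finset.disjoint_union_left, Finset.disjoint_union_left]; exact ⟨⟨hAD, hBD⟩, hCD⟩),
      Finset.sum_union (by rw [Finset.disjoint_union_left]; exact ⟨hAC, hBC⟩),
      Finset.sum_union hAB]
    have q1 : ∑ s ∈ A, (δ₄ s - 2) ≤ m :=
      (Finset.sum_le_sum fun s hs => Nat.sub_le_sub_right (fA s hs) 2).trans s₁
    have q2 : ∑ s ∈ D, (δ₄ s - 2) ≤ k :=
      (Finset.sum_le_sum fun s hs => Nat.sub_le_sub_right (fD s hs) 2).trans s₂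
    have q3 : ∑ s ∈ C, (δ₄ s - 2) ≤ h :=
      (Finset.sum_le_sum fun s hs => Nat.sub_le_sub_right (fC s hs) 2).trans s₃
    omega

theorem Wh.card {G : SimpleGraph V} [Fintype V] {a b c d : V} {A B C D : Finset V}
    {f g h k : ℕ} (w : Wh G a b c d A B C D f g h k) :
    Fintype.card V = 4 + A.card + B.card + C.card + D.card := by
  obtain ⟨rA, rB, rC, rD, hAB, hAC, hAD, hBC, hBD, hCD, ha, hb, hc, hd, cov⟩ := w
  have hab := rC.adj.1.ne
  have hac := rB.adj.1.ne
  have had := rB.adj.2.1.ne
  have hbc := rA.adj.1.ne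
  have hbd := rA.adj.2.1.ne
  have hcd := rA.adj.2.2.ne
  have huniv : insert a (insert b (insert c (insert d (A ∪ B ∪ C ∪ D)))) =
      (Finset.univ : Finset V) := by
    ext z
    have := cov z
    simp only [Finset.mem_insert, Finset.mem_univ, iff_true]
    exact this
  rw [← Finset.card_univ, ← huniv, Finset.card_insert_of_notMem, Finset.card_insert_of_notMem,
    Finset.card_insert_of_notMem, Finset.card_insert_of_notMem hd, Finset.card_union_of_disjoint,
    Finset.card_union_of_disjoint, Finset.card_union_of_disjoint hAB]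
  · omega
  · rw [Finset.disjoint_union_left]; exact ⟨hAC, hBC⟩
  · rw [Finset.disjoint_union_left, Finset.disjoint_union_left]; exact ⟨⟨hAD, hBD⟩, hCD⟩
  · rw [Finset.mem_insert, not_or]; exact ⟨hcd, hc⟩
  · rw [Finset.mem_insert, Finset.mem_insert, not_or, not_or]; exact ⟨hbc, hbd, hb⟩
  · rw [Finset.mem_insert, Finset.mem_insert, Finset.mem_insert, not_or, not_or, not_or]
    exact ⟨hab, hac, had, ha⟩

/-- The conclusion, in terms of growing trees. -/
def Good (G : SimpleGraph V) [Fintype V] : Prop :=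
  ∃ δ : V → ℕ, GT G Finset.univ δ ∧ (∀ v, δ v ≤ 3) ∧
    3 * ∑ v, (δ v - 2) ≤ Fintype.card V - 11

theorem Reg.card1 {G : SimpleGraph V} {a b c : V} {S : Finset V} {f : ℕ}
    (h : Reg G a b c S f) (hS : S ≠ ∅) : 3 * f + 1 ≤ S.card := by
  rcases h.card with ⟨h1, _⟩ | ⟨_, h1⟩
  · exact absurd h1 hS
  · exact h1

theorem Wh.save {G : SimpleGraph V} [Fintype V] {a b c d : V} {A B C D : Finset V}
    {f g h k : ℕ} (w : Wh G a b c d A B C D f g h k) (hA : A ≠ ∅) (hB : B ≠ ∅) (hC : C ≠ ∅)
    (hD : D ≠ ∅) (hs : Sav G d c b A f) : Good G := by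
  obtain ⟨m, hm, ⟨p1, _⟩, _⟩ := hs
  obtain ⟨δ, q1, q2, q3⟩ := w.root p1 (by rw [ind_self])
  refine ⟨δ, q1, q2, ?_⟩
  have hc := w.card
  have r1 := w.rA.card1 hA
  have r2 := w.rB.card1 hB
  have r3 := w.rC.card1 hC
  have r4 := w.rD.card1 hD
  omega

theorem Wh.goodA {G : SimpleGraph V} [Fintype V] {a b c d : V} {A B C D : Finset V}
    {f g h k : ℕ} (w : Wh G a b c d A B C D f g h k) (hA : A ≠ ∅) (hB : B ≠ ∅) (hC : C ≠ ∅)
    (hD : D ≠ ∅) (hf : 1 ≤ f) : Good G := by
  by_cases hs : A.card ≤ 3 * f + 3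
  · rcases w.rA.slack2 hf hs with h1 | h1 | h1
    · -- corner b
      exact w.lastB.save hA hC hD hB h1.swap
    · -- corner c
      exact w.swap34.save hA hB hD hC h1.swap
    · exact w.save hA hB hC hD h1.swap
  · have P : Pc G {d} {c} A (ind d) f := w.rA.swap12.swap23.swap12.go
    obtain ⟨δ, q1, q2, q3⟩ := w.root P (by rw [ind_self]; omega)
    refine ⟨δ, q1, q2, ?_⟩
    have hc := w.card
    have r2 := w.rB.card1 hB
    have r3 := w.rC.card1 hC
    have r4 := w.rD.card1 hD
    omega

theorem Wh.zero {G : SimpleGraph V} [Fintype V] {a b c d : V} {A B C D : Finset V}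
    {f g h k : ℕ} (w : Wh G a b c d A B C D f g h k) (h0 : f + g + h + k = 0) : Good G := by
  have P : Pc G {d} {c} A (ind d) f := w.rA.swap12.swap23.swap12.go
  obtain ⟨δ, q1, q2, q3⟩ := w.root P (by rw [ind_self]; omega)
  refine ⟨δ, q1, q2, ?_⟩
  omega

theorem Wh.good {G : SimpleGraph V} [Fintype V] {a b c d : V} {A B C D : Finset V}
    {f g h k : ℕ} (w : Wh G a b c d A B C D f g h k) (hA : A ≠ ∅) (hB : B ≠ ∅) (hC : C ≠ ∅)
    (hD : D ≠ ∅) : Good G := by
  rcases Nat.eq_zero_or_pos f with h1 | h1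
  · rcases Nat.eq_zero_or_pos g with h2 | h2
    · rcases Nat.eq_zero_or_pos h with h3 | h3
      · rcases Nat.eq_zero_or_pos k with h4 | h4
        · exact w.zero (by omega)
        · exact w.swap34.swap23.swap12.goodA hD hA hB hC h4
      · exact w.swap23.swap12.goodA hC hA hB hD h3
    · exact w.swap12.goodA hB hA hC hD h2
  · exact w.goodA hA hB hC hD h1

/-- Moving the root to a full centre. -/
theorem Wh.move {G : SimpleGraph V} [Fintype V] : ∀ (N : ℕ) {a b c d : V}
    {A B C D : Finset V} {f g h k : ℕ}, Wh G a b c d A B C D f g h k → 1 ≤ k →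
    D.card ≤ N → Good G := by
  intro N
  induction N with
  | zero =>
    intro a b c d A B C D f g h k w hk hN
    have := (w.rD.ne_of_pos hk).2
    omega
  | succ N ih =>
    intro a b c d A B C D f g h k w hk hN
    rcases w.rD.cases' with ⟨_, h0⟩ | ⟨e, A₁, B₁, C₁, f₁, g₁, h₁, n, hS, hk'⟩
    · omega
    · have hcard := n.cardS
      rw [← hS] at hcard
      obtain ⟨rA, rB, rC, rD, hAB, hAC, hAD, hBC, hBD, hCD, ha, hb, hc, hd, cov⟩ := w
      have hA₁ : A₁ ⊆ D := by
        rw [hS]; intro z hz; simp [hz]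
      have hB₁ : B₁ ⊆ D := by
        rw [hS]; intro z hz; simp [hz]
      have hC₁ : C₁ ⊆ D := by
        rw [hS]; intro z hz; simp [hz]
      have heD : e ∈ D := by
        rw [hS]; simp
      have hed : e ∉ insert d (A ∪ B ∪ C) := by
        intro he
        simp only [Finset.mem_insert, Finset.mem_union] at he
        rcases he with rfl | (he | he) | he
        · exact hd (by simp [heD])
        · exact Finset.disjoint_left.1 hAD he heD
        · exact Finset.disjoint_left.1 hBD he heD
        · exact Finset.disjoint_left.1 hCD he heD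
      have hDD : Disjoint D (insert d (A ∪ B ∪ C)) := by
        rw [Finset.disjoint_left]
        intro z hz hz'
        simp only [Finset.mem_insert, Finset.mem_union] at hz'
        rcases hz' with rfl | (hz' | hz') | hz'
        · exact hd (by simp [hz])
        · exact Finset.disjoint_left.1 hAD hz' hz
        · exact Finset.disjoint_left.1 hBD hz' hz
        · exact Finset.disjoint_left.1 hCD hz' hz
      simp only [Finset.mem_union, not_or] at ha hb hc hd
      have nab := rC.adj.1.ne
      have nad := rB.adj.2.1.ne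
      have nbd := rA.adj.2.1.ne
      have ncd := rA.adj.2.2.ne
      have rback : Reg G a b c (insert d (A ∪ B ∪ C))
          (f + g + h + if A = ∅ ∨ B = ∅ ∨ C = ∅ then 0 else 1) := by
        refine Reg.node rA.swap23.swap12 rB.swap23 rC ?_ ?_ ?_ ?_ hAB hAC hBC rfl
        · simp only [Finset.mem_insert, Finset.mem_union, not_or]
          exact ⟨nad, ha.1⟩
        · simp only [Finset.mem_insert, Finset.mem_union, not_or]
          exact ⟨nbd, hb.1⟩
        · simp only [Finset.mem_insert, Finset.mem_union, not_or]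
          exact ⟨ncd, hc.1⟩
        · simp only [Finset.mem_union, not_or]
          exact hd.1
      have w' : Wh G a b c e A₁ B₁ C₁ (insert d (A ∪ B ∪ C)) f₁ g₁ h₁
          (f + g + h + if A = ∅ ∨ B = ∅ ∨ C = ∅ then 0 else 1) := by
        have na := n.ha
        have nb := n.hb
        have nc := n.hc
        have nd := n.hd
        simp only [Finset.mem_insert, Finset.mem_union, not_or] at na nb nc nd
        refine ⟨n.rA.swap12.swap23, n.rB.swap23, n.rC, rback, n.hAB, n.hAC, ?_, n.hBC, ?_, ?_,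
          ?_, ?_, ?_, ?_, ?_⟩
        · exact Finset.disjoint_of_subset_left hA₁ hDD
        · exact Finset.disjoint_of_subset_left hB₁ hDD
        · exact Finset.disjoint_of_subset_left hC₁ hDD
        · simp only [Finset.mem_insert, Finset.mem_union, not_or]
          exact ⟨na.2, nad, ha.1⟩
        · simp only [Finset.mem_insert, Finset.mem_union, not_or]
          exact ⟨nb.2, nbd, hb.1⟩
        · simp only [Finset.mem_insert, Finset.mem_union, not_or]
          exact ⟨nc.2, ncd, hc.1⟩
        · simp only [Finset.mem_insert, Finset.mem_union, not_or] at hed ⊢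
          exact ⟨nd, hed⟩
        · intro v
          have := cov v
          rw [hS] at this
          simp only [Finset.mem_insert, Finset.mem_union] at this ⊢
          tauto
      by_cases hfull : A₁ = ∅ ∨ B₁ = ∅ ∨ C₁ = ∅
      · rw [if_pos hfull] at hk'
        rcases Nat.eq_zero_or_pos f₁ with h1 | h1
        · rcases Nat.eq_zero_or_pos g₁ with h2 | h2
          · exact ih w'.swap34 (by omega) (by omega)
          · exact ih w'.lastB h2 (by omega)
        · exact ih w'.lastA h1 (by omega)
      · rw [not_or, not_or] at hfull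
        exact w'.good hfull.1 hfull.2.1 hfull.2.2 (Finset.insert_ne_empty _ _)

theorem good_of_apollonian {G : SimpleGraph V} [Fintype V] (hG : HasSpanningApollonian G) :
    Good G := by
  obtain ⟨a, b, c, S, hsub, ha, hb, hc, hcov⟩ := hG
  obtain ⟨k, r⟩ := hsub.reg
  rcases r.cases' with ⟨hS, _⟩ | ⟨d, A, B, C, f, g, h, n, hS, hk'⟩
  · subst hS
    have hab := r.adj.1
    have hac := r.adj.2.1
    have hbc := r.adj.2.2
    have g1 := GT.leaf (GT.one (G := G) a) (Finset.mem_singleton_self a)
      (by rw [Finset.mem_singleton]; exact hab.ne.symm) hab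
    have g2 := GT.leaf g1 (Finset.mem_insert_self b _)
      (by
        rw [Finset.mem_insert, Finset.mem_singleton, not_or]
        exact ⟨hbc.ne.symm, hac.ne.symm⟩) hbc
    have hU : insert c (insert b {a}) = (Finset.univ : Finset V) := by
      ext z
      have := hcov z
      simp only [Finset.mem_insert, Finset.mem_singleton, Finset.mem_univ, iff_true,
        Finset.notMem_empty, or_false] at this ⊢
      tauto
    rw [hU] at g2
    refine ⟨_, g2, ?_, ?_⟩
    · intro v
      have h1 := hab.ne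
      have h2 := hac.ne
      have h3 := hbc.ne
      have h4 : ∀ p : Prop, ∀ _ : Decidable p, (if p then 1 else 0 : ℕ) ≤ 1 := by
        intro p _
        split_ifs <;> omega
      by_cases e1 : v = a
      · subst e1
        simp [h1, h2]
      · by_cases e2 : v = b
        · subst e2
          simp [e1, h3]
        · have := h4 (v = c) inferInstance
          simp only [e1, e2, if_false]
          omega
    · have hz : ∀ v : V, (0 + (if v = a then 1 else 0) + (if v = b then 1 else 0) +
          (if v = b then 1 else 0) + (if v = c then 1 else 0)) - 2 = 0 := by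
        intro v
        have h1 := hab.ne
        have h2 := hac.ne
        have h3 := hbc.ne
        by_cases e1 : v = a
        · subst e1
          simp [h1, h2]
        · by_cases e2 : v = b
          · subst e2
            simp [e1, h3]
          · by_cases e3 : v = c
            · simp only [e1, e2, if_false]
              split_ifs
              all_goals omega
            · simp only [e1, e2, if_false]
              split_ifs
              all_goals omega
      rw [Finset.sum_congr rfl (fun v _ => hz v)]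
      simp
  · have nne := n.ne
    have hdS : d ∈ S := by
      rw [hS]; simp
    have w : Wh G a b c d A B C ∅ f g h 0 := by
      have na := n.ha
      have nb := n.hb
      have nc := n.hc
      have nd := n.hd
      simp only [Finset.mem_insert, Finset.mem_union, not_or] at na nb nc nd
      refine ⟨n.rA.swap12.swap23, n.rB.swap23, n.rC, Reg.nil r.adj.1 r.adj.2.1 r.adj.2.2, n.hAB,
        n.hAC, Finset.disjoint_empty_right _, n.hBC, Finset.disjoint_empty_right _,
        Finset.disjoint_empty_right _, ?_, ?_, ?_, ?_, ?_⟩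
      · simp only [Finset.mem_union, Finset.notMem_empty, or_false, not_or]
        exact na.2
      · simp only [Finset.mem_union, Finset.notMem_empty, or_false, not_or]
        exact nb.2
      · simp only [Finset.mem_union, Finset.notMem_empty, or_false, not_or]
        exact nc.2
      · simp only [Finset.mem_union, Finset.notMem_empty, or_false, not_or]
        exact nd
      · intro v
        have := hcov v
        rw [hS] at this
        simp only [Finset.mem_insert, Finset.mem_union] at this ⊢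
        tauto
    rcases Nat.eq_zero_or_pos f with h1 | h1
    · rcases Nat.eq_zero_or_pos g with h2 | h2
      · rcases Nat.eq_zero_or_pos h with h3 | h3
        · exact w.zero (by omega)
        · exact w.swap34.move _ h3 le_rfl
      · exact w.lastB.move _ h2 le_rfl
    · exact w.lastA.move _ h1 le_rfl

end Pool.Agent.Apo
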